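import Mathlib

set_option autoImplicit false

namespace Pool.Agent.Results.MP_8a5df5_al.NoAction

/-- The free algebra on the symbols `u i j`. -/
abbrev Fr (n : ℕ) : Type := FreeAlgebra ℂ (Fin n × Fin n)

/-- The defining relations of the free hyperoctahedral quantum group. -/
inductive Rel (n : ℕ) : Fr n → Fr n → Prop
  | row (i j : Fin n) : Rel n (∑ k, FreeAlgebra.ι ℂ (i, k) * FreeAlgebra.ι ℂ (j, k))
      (if i = j then 1 else 0)
  | col (i j : Fin n) : Rel n (∑ k, FreeAlgebra.ι ℂ (k, i) * FreeAlgebra.ι ℂ (k, j))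
      (if i = j then 1 else 0)
  | cubRow (i j k : Fin n) : j ≠ k → Rel n (FreeAlgebra.ι ℂ (i, j) * FreeAlgebra.ι ℂ (i, k)) 0
  | cubCol (i j k : Fin n) : j ≠ k → Rel n (FreeAlgebra.ι ℂ (j, i) * FreeAlgebra.ι ℂ (k, i)) 0

/-- The algebra of polynomial functions on `H_n^+`. -/
abbrev OH (n : ℕ) : Type := RingQuot (Rel n)

/-- The generators. -/
noncomputable def u {n : ℕ} (i j : Fin n) : OH n :=
  RingQuot.mkAlgHom ℂ (Rel n) (FreeAlgebra.ι ℂ (i, j))

/-- The algebra of polynomial functions on `PH_n^+`. -/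
noncomputable def OPH (n : ℕ) : Subalgebra ℂ (OH n) :=
  Algebra.adjoin ℂ {x | ∃ i j k l, x = u i j * u k l}

abbrev K : Type := RatFunc ℂ
abbrev M : Type := Matrix (Fin 2) (Fin 2) K

noncomputable def g {n : ℕ} (p : Fin n × Fin n) : M :=
  if p.1 = p.2 then (if p.1.1 = 0 then !![0, RatFunc.X; RatFunc.X⁻¹, 0] else !![0, 1; 1, 0]) else 0

theorem gg {n : ℕ} (i : Fin n) : g (i, i) * g (i, i) = 1 := by
  simp only [g, if_true]
  split_ifs <;> simp [Matrix.one_fin_two, RatFunc.X_ne_zero]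

theorem g0 {n : ℕ} {i j : Fin n} (h : i ≠ j) : g (i, j) = 0 := if_neg h

noncomputable def φ (n : ℕ) : OH n →ₐ[ℂ] M :=
  RingQuot.liftAlgHom ℂ ⟨FreeAlgebra.lift ℂ g, by
    intro x y h
    induction h with
    | row i j =>
      simp only [map_sum, map_mul, FreeAlgebra.lift_ι_apply]
      rw [Finset.sum_eq_single i (fun k _ hk => by rw [g0 hk.symm, zero_mul]) (by simp)]
      split_ifs with c
      · rw [← c, gg, map_one]
      · rw [g0 (Ne.symm c), mul_zero, map_zero]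
    | col i j =>
      simp only [map_sum, map_mul, FreeAlgebra.lift_ι_apply]
      rw [Finset.sum_eq_single i (fun k _ hk => by rw [g0 hk, zero_mul]) (by simp)]
      split_ifs with c
      · rw [← c, gg, map_one]
      · rw [g0 c, mul_zero, map_zero]
    | cubRow i j k h =>
      simp only [map_zero, map_mul, FreeAlgebra.lift_ι_apply]
      by_cases c : i = j
      · rw [g0 (c ▸ h : i ≠ k), mul_zero]
      · rw [g0 c, zero_mul]
    | cubCol i j k h =>
      simp only [map_zero, map_mul, FreeAlgebra.lift_ι_apply]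
      by_cases c : j = i
      · rw [g0 (c ▸ h.symm : k ≠ i), mul_zero]
      · rw [g0 c, zero_mul]⟩

theorem φu {n : ℕ} (i j : Fin n) : φ n (u i j) = g (i, j) := by
  simp [φ, u, RingQuot.liftAlgHom_mkAlgHom_apply]

noncomputable def D (R : Subalgebra ℂ K) : Subalgebra ℂ M where
  carrier := {x | x 0 1 = 0 ∧ x 0 0 ∈ R}
  mul_mem' := fun {a b} ha hb => by
    simp only [Set.mem_ofPred_eq, Matrix.mul_apply, Fin.sum_univ_two, ha.1, hb.1, mul_zero,
      zero_mul, add_zero, true_and]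
    exact R.mul_mem ha.2 hb.2
  add_mem' := fun {a b} ha hb => ⟨by simp [ha.1, hb.1], R.add_mem ha.2 hb.2⟩
  algebraMap_mem' := fun c => ⟨by simp [Matrix.algebraMap_matrix_apply],
    by simpa [Matrix.algebraMap_matrix_apply] using R.algebraMap_mem c⟩

theorem result (n : ℕ) (hn : 2 ≤ n) (S : Set (OH n)) (hS : ∀ s ∈ S, s * s = s) :
    Algebra.adjoin ℂ S ≠ OPH n := by
  intro h
  have h1 : OPH n ≤ (D ⊤).comap (φ n) := Algebra.adjoin_le (by
    rintro _ ⟨i, j, k, l, rfl⟩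
    refine ⟨show φ n (u i j * u k l) 0 1 = 0 from ?_, trivial⟩
    rw [map_mul, φu, φu, g, g]
    split_ifs <;> simp)
  have h2 : Algebra.adjoin ℂ S ≤ (D ⊥).comap (φ n) := Algebra.adjoin_le fun s hs => by
    have a1 : φ n s 0 1 = 0 := (h1 (h ▸ Algebra.subset_adjoin hs)).1
    refine ⟨a1, show φ n s 0 0 ∈ (⊥ : Subalgebra ℂ K) from ?_⟩
    have a2 := congrArg (fun x => φ n x 0 0) (hS s hs)
    simp only [map_mul, Matrix.mul_apply, Fin.sum_univ_two, a1, zero_mul, add_zero] at a2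
    rcases IsIdempotentElem.iff_eq_zero_or_one.1 a2 with c | c <;> rw [c]
    · exact zero_mem _
    · exact one_mem _
  have h3 : u ⟨0, by omega⟩ ⟨0, by omega⟩ * u ⟨1, hn⟩ ⟨1, hn⟩ ∈ OPH n :=
    Algebra.subset_adjoin ⟨_, _, _, _, rfl⟩
  obtain ⟨c, hc⟩ : ∃ c, algebraMap ℂ K c = φ n _ 0 0 := Algebra.mem_bot.1 (h2 (h ▸ h3)).2
  rw [map_mul, φu, φu] at hc
  have h4 : RatFunc.C c = RatFunc.X := by simpa [g] using hc
  simpa using congrArg RatFunc.intDegree h4

end Pool.Agent.Results.MP_8a5df5_al.NoAction
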